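import Mathlib

/-!
The lattice of increasing homeomorphisms of the real line.
-/

set_option autoImplicit false

namespace Pool.Agent.H70R2.LatAut

/-- The increasing bijections of the real line. -/
def L : Type := ℝ ≃o ℝ

namespace L

instance : Group L := inferInstanceAs (Group (ℝ ≃o ℝ))

instance : FunLike L ℝ ℝ where
  coe f := fun x => (show ℝ ≃o ℝ from f) x
  coe_injective f g h := by
    have : (show ℝ ≃o ℝ from f) = (show ℝ ≃o ℝ from g) := DFunLike.ext _ _ (fun x => congrFun h x)
    exact this

theorem ext {f g : L} (h : ∀ x, f x = g x) : f = g := DFunLike.ext f g h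

@[simp] theorem mul_apply (f g : L) (x : ℝ) : (f * g) x = f (g x) := rfl
@[simp] theorem one_apply (x : ℝ) : (1 : L) x = x := rfl
@[simp] theorem inv_apply_self (f : L) (x : ℝ) : f⁻¹ (f x) = x := by
  rw [← mul_apply, inv_mul_cancel, one_apply]
@[simp] theorem apply_inv_self (f : L) (x : ℝ) : f (f⁻¹ x) = x := by
  rw [← mul_apply, mul_inv_cancel, one_apply]

theorem smono (f : L) : StrictMono f := OrderIso.strictMono (show ℝ ≃o ℝ from f)
theorem cont (f : L) : Continuous f := OrderIso.continuous (show ℝ ≃o ℝ from f)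
theorem lt_iff (f : L) {x y : ℝ} : f x < f y ↔ x < y := (smono f).lt_iff_lt
theorem le_iff (f : L) {x y : ℝ} : f x ≤ f y ↔ x ≤ y := (smono f).le_iff_le
theorem inj (f : L) {x y : ℝ} (h : f x = f y) : x = y := (smono f).injective h
theorem le_inv_iff (f : L) {x y : ℝ} : x ≤ f⁻¹ y ↔ f x ≤ y := by
  rw [← le_iff f, apply_inv_self]
theorem inv_le_iff (f : L) {x y : ℝ} : f⁻¹ x ≤ y ↔ x ≤ f y := by
  rw [← le_iff f, apply_inv_self]

/-- Build an element from an increasing surjection. -/
noncomputable def mk (f : ℝ → ℝ) (hm : ∀ x y, f x ≤ f y ↔ x ≤ y) (hs : Function.Surjective f) : L :=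
  show ℝ ≃o ℝ from
  RelIso.ofSurjective (OrderEmbedding.ofMapLEIff f hm) hs

@[simp] theorem mk_apply (f : ℝ → ℝ) (hm : ∀ x y, f x ≤ f y ↔ x ≤ y)
    (hs : Function.Surjective f) (x : ℝ) : mk f hm hs x = f x := rfl

theorem exists_sup (f g : L) : ∃ h : L, ∀ x, h x = max (f x) (g x) := by
  refine ⟨mk (fun x => max (f x) (g x)) ?_ ?_, fun x => rfl⟩
  · have : StrictMono (fun x => max (f x) (g x)) := by
      intro x y hxy
      exact max_lt_max (f.smono hxy) (g.smono hxy)
    exact fun x y => this.le_iff_le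
  · intro y
    refine ⟨min (f⁻¹ y) (g⁻¹ y), ?_⟩
    show max (f (min (f⁻¹ y) (g⁻¹ y))) (g (min (f⁻¹ y) (g⁻¹ y))) = y
    rcases le_total (f⁻¹ y) (g⁻¹ y) with h | h
    · rw [min_eq_left h, apply_inv_self]
      apply max_eq_left
      rwa [← le_inv_iff]
    · rw [min_eq_right h, apply_inv_self]
      apply max_eq_right
      rwa [← le_inv_iff]

theorem exists_inf (f g : L) : ∃ h : L, ∀ x, h x = min (f x) (g x) := by
  refine ⟨mk (fun x => min (f x) (g x)) ?_ ?_, fun x => rfl⟩
  · have : StrictMono (fun x => min (f x) (g x)) := by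
      intro x y hxy
      exact min_lt_min (f.smono hxy) (g.smono hxy)
    exact fun x y => this.le_iff_le
  · intro y
    refine ⟨max (f⁻¹ y) (g⁻¹ y), ?_⟩
    show min (f (max (f⁻¹ y) (g⁻¹ y))) (g (max (f⁻¹ y) (g⁻¹ y))) = y
    rcases le_total (f⁻¹ y) (g⁻¹ y) with h | h
    · rw [max_eq_right h, apply_inv_self]
      apply min_eq_right
      rwa [← inv_le_iff]
    · rw [max_eq_left h, apply_inv_self]
      apply min_eq_left
      rwa [← inv_le_iff]

instance : PartialOrder L := PartialOrder.lift (fun f : L => (f : ℝ → ℝ)) DFunLike.coe_injective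

theorem le_def {f g : L} : f ≤ g ↔ ∀ x, f x ≤ g x := Iff.rfl

theorem app {f g : L} (h : f ≤ g) (x : ℝ) : f x ≤ g x := h x

noncomputable instance : Lattice L where
  sup f g := (exists_sup f g).choose
  inf f g := (exists_inf f g).choose
  le_sup_left f g := by
    intro x; show f x ≤ (exists_sup f g).choose x
    rw [(exists_sup f g).choose_spec]; exact le_max_left _ _
  le_sup_right f g := by
    intro x; show g x ≤ (exists_sup f g).choose x
    rw [(exists_sup f g).choose_spec]; exact le_max_right _ _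
  sup_le f g h h1 h2 := by
    intro x; show (exists_sup f g).choose x ≤ h x
    rw [(exists_sup f g).choose_spec]; exact max_le (h1 x) (h2 x)
  inf_le_left f g := by
    intro x; show (exists_inf f g).choose x ≤ f x
    rw [(exists_inf f g).choose_spec]; exact min_le_left _ _
  inf_le_right f g := by
    intro x; show (exists_inf f g).choose x ≤ g x
    rw [(exists_inf f g).choose_spec]; exact min_le_right _ _
  le_inf f g h h1 h2 := by
    intro x; show f x ≤ (exists_inf g h).choose x
    rw [(exists_inf g h).choose_spec]; exact le_min (h1 x) (h2 x)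

@[simp] theorem sup_apply (f g : L) (x : ℝ) : (f ⊔ g) x = max (f x) (g x) :=
  (exists_sup f g).choose_spec x
@[simp] theorem inf_apply (f g : L) (x : ℝ) : (f ⊓ g) x = min (f x) (g x) :=
  (exists_inf f g).choose_spec x

/-- The line through `(c, d)` with slope `s`. -/
noncomputable def line (c d s : ℝ) (hs : 0 < s) : L :=
  mk (fun t => d + s * (t - c)) (fun x y => by
    constructor
    · intro h
      have : s * (x - c) ≤ s * (y - c) := by linarith
      have := le_of_mul_le_mul_left this hs
      linarith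
    · intro h
      have : s * (x - c) ≤ s * (y - c) := mul_le_mul_of_nonneg_left (by linarith) hs.le
      linarith)
    (fun y => ⟨(y - d) / s + c, by field_simp; ring⟩)

@[simp] theorem line_apply (c d s : ℝ) (hs : 0 < s) (t : ℝ) :
    line c d s hs t = d + s * (t - c) := rfl

/-- Interpolation at two points. -/
theorem exists_interp {u v m M : ℝ} (h : u < v) (h' : m < M) : ∃ f : L, f u = m ∧ f v = M := by
  have h1 : 0 < v - u := by linarith
  refine ⟨line u m ((M - m) / (v - u)) (div_pos (by linarith) h1), ?_, ?_⟩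
  · simp
  · rw [line_apply, div_mul_cancel₀ _ h1.ne']; ring

/-- A bump: moves exactly the points of `(a, b)`, upwards. -/
theorem exists_bump (a b : ℝ) : ∃ f : L, (∀ t, t ≤ f t) ∧
    ∀ t, (f t = t ↔ t ≤ a ∨ b ≤ t) := by
  refine ⟨1 ⊔ (line a a 2 (by norm_num) ⊓ line b b (1/2) (by norm_num)), ?_, ?_⟩
  · intro t; simp
  · intro t
    simp only [sup_apply, inf_apply, one_apply, line_apply, sup_eq_left, inf_le_iff]
    constructor
    · rintro (h1 | h1)
      · left; linarith
      · right; linarith
    · rintro (h1 | h1)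
      · left; linarith
      · right; linarith

/-- An upward map with a single fixed point. -/
theorem exists_single (z : ℝ) : ∃ f : L, (∀ t, t ≤ f t) ∧ ∀ t, (f t = t ↔ t = z) := by
  refine ⟨line z z 2 (by norm_num) ⊔ line z z (1/2) (by norm_num), ?_, ?_⟩
  · intro t
    simp only [sup_apply, line_apply, le_sup_iff]
    rcases le_total z t with h | h
    · left; linarith
    · right; linarith
  · intro t
    simp only [sup_apply, line_apply]
    constructor
    · intro h
      rcases lt_trichotomy z t with h1 | h1 | h1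
      · have := le_max_left (z + 2 * (t - z)) (z + 1 / 2 * (t - z))
        rw [h] at this; linarith
      · exact h1.symm
      · have := le_max_right (z + 2 * (t - z)) (z + 1 / 2 * (t - z))
        rw [h] at this; linarith
    · rintro rfl; simp

end L

open L Filter Topology

/-- Proper nonempty prime ideals of the lattice that are closed under all existing suprema. -/
structure CP (P : Set L) : Prop where
  nonempty : ∃ f, f ∈ P
  ne_univ : ∃ f, f ∉ P
  lower : ∀ f g, f ≤ g → g ∈ P → f ∈ P
  sup : ∀ f g, f ∈ P → g ∈ P → f ⊔ g ∈ P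
  prime : ∀ f g, f ⊓ g ∈ P → f ∈ P ∨ g ∈ P
  lub : ∀ (S : Set L) (h : L), S ⊆ P → IsLUB S h → h ∈ P

/-- The prime ideal attached to a point of the plane. -/
def pt (x y : ℝ) : Set L := {f | f x ≤ y}

theorem mem_pt {x y : ℝ} {f : L} : f ∈ pt x y ↔ f x ≤ y := Iff.rfl

theorem exists_through (x y : ℝ) : ∃ f : L, f x = y :=
  ⟨line x y 1 one_pos, by simp⟩

/-- A downward bump. -/
theorem exists_down (a b : ℝ) : ∃ f : L, (∀ t, f t ≤ t) ∧ ∀ t, (f t = t ↔ t ≤ a ∨ b ≤ t) := by
  obtain ⟨f, hf, hf'⟩ := exists_bump a b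
  refine ⟨f⁻¹, fun t => (inv_le_iff f).mpr (hf t), fun t => ?_⟩
  rw [← hf' t]
  constructor
  · intro h
    conv_lhs => rw [← h]
    rw [apply_inv_self]
  · intro h
    conv_lhs => rw [← h]
    rw [inv_apply_self]

theorem cp_pt (x y : ℝ) : CP (pt x y) := by
  refine ⟨?_, ?_, ?_, ?_, ?_, ?_⟩
  · obtain ⟨f, hf⟩ := exists_through x y
    exact ⟨f, hf.le⟩
  · obtain ⟨f, hf⟩ := exists_through x (y + 1)
    refine ⟨f, fun h => ?_⟩
    rw [mem_pt, hf] at h
    linarith
  · intro f g h hg
    exact (h x).trans hg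
  · intro f g hf hg
    rw [mem_pt, sup_apply]
    exact max_le hf hg
  · intro f g h
    rw [mem_pt, inf_apply] at h
    exact min_le_iff.mp h
  · intro S h hS hlub
    by_contra hcon
    have hlt : y < h x := not_le.mp hcon
    obtain ⟨w, hw, hw'⟩ := exists_down y (h x)
    have hub : w * h ∈ upperBounds S := by
      intro f hf
      rw [L.le_def]
      intro t
      have h1 : f t ≤ h t := hlub.1 hf t
      rw [mul_apply]
      rcases le_or_gt (h t) y with h2 | h2
      · rw [(hw' _).mpr (Or.inl h2)]; exact h1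
      · rcases le_or_gt (h x) (h t) with h3 | h3
        · rw [(hw' _).mpr (Or.inr h3)]; exact h1
        · have h4 : t < x := (lt_iff h).mp h3
          have h5 : f t ≤ y := ((le_iff f).mpr h4.le).trans (hS hf)
          refine h5.trans ?_
          have h6 : w y = y := (hw' _).mpr (Or.inl le_rfl)
          rw [← h6]
          exact (le_iff w).mpr h2.le
    have h1 := hlub.2 hub
    -- at a point in between
    have h2 : w ((y + h x) / 2) ≠ (y + h x) / 2 := by
      intro h3
      rcases (hw' _).mp h3 with h4 | h4 <;> linarith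
    have h3 := app h1 (h⁻¹ ((y + h x) / 2))
    rw [mul_apply, apply_inv_self] at h3
    exact h2 (le_antisymm (hw _) h3)

/-- A cap function: large on `[-n, n]`, below the identity far away. -/
theorem exists_cap (M n : ℝ) : ∃ v : L, (∀ t, -n ≤ t → M ≤ v t) ∧
    ∀ t, (t ≤ -(M + 2 * n) ∨ 2 * M + n ≤ t) → v t ≤ t := by
  refine ⟨line (-n) M (1/2) (by norm_num) ⊓ line (-n) M 2 (by norm_num), ?_, ?_⟩
  · intro t ht
    simp only [inf_apply, line_apply, le_inf_iff]
    constructor <;> linarith
  · intro t ht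
    simp only [inf_apply, line_apply, inf_le_iff]
    rcases ht with h | h
    · right; linarith
    · left; linarith

theorem pt_of_cp {P : Set L} (hP : CP P) : ∃ x y, P = pt x y := by
  classical
  obtain ⟨f0, hf0⟩ := hP.nonempty
  obtain ⟨k0, hk0⟩ := hP.ne_univ
  -- locality at some point
  have hloc : ∃ x : ℝ, ∀ f k : L, f ∈ P → (∀ᶠ t in 𝓝 x, k t = f t) → k ∈ P := by
    by_contra hcon
    push Not at hcon
    -- every compact set is bad
    have hbad : ∀ K : Set ℝ, IsCompact K → ∃ f k : L, f ∈ P ∧ k ∉ P ∧ ∀ t ∈ K, k t ≤ f t := by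
      intro K hK
      refine hK.induction_on ?_ ?_ ?_ ?_
      · exact ⟨f0, k0, hf0, hk0, fun t ht => absurd ht (Set.notMem_empty t)⟩
      · rintro s t hst ⟨f, k, hf, hk, h⟩
        exact ⟨f, k, hf, hk, fun t ht => h t (hst ht)⟩
      · rintro s t ⟨f, k, hf, hk, h⟩ ⟨f', k', hf', hk', h'⟩
        refine ⟨f ⊔ f', k ⊓ k', hP.sup _ _ hf hf', fun hc => ?_, ?_⟩
        · rcases hP.prime _ _ hc with h3 | h3
          · exact hk h3
          · exact hk' h3
        · rintro t (ht | ht)
          · rw [inf_apply, sup_apply]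
            exact (min_le_left _ _).trans ((h t ht).trans (le_max_left _ _))
          · rw [inf_apply, sup_apply]
            exact (min_le_right _ _).trans ((h' t ht).trans (le_max_right _ _))
      · intro x _
        obtain ⟨f, k, hf, hfk, hk⟩ := hcon x
        refine ⟨{t | k t = f t}, mem_nhdsWithin_of_mem_nhds hfk, f, k, hf, hk, ?_⟩
        intro t ht
        exact le_of_eq ht
    -- approximate `h = k0 ⊔ f0`
    let h : L := k0 ⊔ f0
    have hh : h ∉ P := fun hc => hk0 (hP.lower _ _ le_sup_left hc)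
    let hg : L := h * f0⁻¹
    have hge : ∀ t, t ≤ hg t := by
      intro t
      show t ≤ h (f0⁻¹ t)
      have : f0 (f0⁻¹ t) ≤ h (f0⁻¹ t) := (le_sup_right : f0 ≤ h) _
      rwa [apply_inv_self] at this
    have hcap : ∀ n : ℕ, ∃ v : L, (∀ t, -(n : ℝ) ≤ t → |hg n| ≤ v t) ∧
        ∀ t, (t ≤ -(|hg n| + 2 * n) ∨ 2 * |hg n| + n ≤ t) → v t ≤ t :=
      fun n => exists_cap _ _
    choose v hv1 hv2 using hcap
    have hlub : IsLUB (Set.range fun n => h ⊓ (v n * f0)) h := by
      constructor
      · rintro _ ⟨n, rfl⟩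
        exact inf_le_left
      · intro u hu
        rw [L.le_def]
        intro t
        obtain ⟨n, hn⟩ := exists_nat_ge |f0 t|
        have h1 := app (hu ⟨n, rfl⟩) t
        simp only [inf_apply, mul_apply] at h1
        have h2 : h t ≤ v n (f0 t) := by
          have h3 : hg (f0 t) ≤ hg n := (le_iff hg).mpr ((le_abs_self _).trans hn)
          have h4 : hg (f0 t) = h t := by
            show h (f0⁻¹ (f0 t)) = h t
            rw [inv_apply_self]
          rw [h4] at h3
          exact h3.trans ((le_abs_self _).trans (hv1 n _ (by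
            have := neg_abs_le (f0 t)
            linarith)))
        rwa [min_eq_left h2] at h1
    obtain ⟨n, hn⟩ : ∃ n, h ⊓ (v n * f0) ∉ P := by
      by_contra hc
      push Not at hc
      apply hh
      apply hP.lub _ _ _ hlub
      rintro _ ⟨n, rfl⟩
      exact hc n
    obtain ⟨f, k, hf, hk, hfk⟩ := hbad
      (Set.Icc (f0⁻¹ (-(|hg n| + 2 * n))) (f0⁻¹ (2 * |hg n| + n))) isCompact_Icc
    have h1 : k ⊓ (h ⊓ (v n * f0)) ≤ f ⊔ f0 := by
      rw [L.le_def]
      intro t
      simp only [inf_apply, sup_apply, mul_apply]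
      by_cases ht : t ∈ Set.Icc (f0⁻¹ (-(|hg n| + 2 * n))) (f0⁻¹ (2 * |hg n| + n))
      · exact (min_le_left _ _).trans ((hfk t ht).trans (le_max_left _ _))
      · rw [Set.mem_Icc, inv_le_iff, le_inv_iff, not_and_or, not_le, not_le] at ht
        have := hv2 n (f0 t) (by
          rcases ht with h | h
          · exact Or.inl h.le
          · exact Or.inr h.le)
        exact (min_le_right _ _).trans ((min_le_right _ _).trans (this.trans (le_max_right _ _)))
    rcases hP.prime _ _ (hP.lower _ _ h1 (hP.sup _ _ hf hf0)) with h2 | h2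
    · exact hk h2
    · exact hn h2
  obtain ⟨x, hx⟩ := hloc
  have hlt : ∀ f k : L, f ∈ P → k x < f x → k ∈ P := by
    intro f k hf hk
    apply hx (k ⊓ f) k (hP.lower _ _ inf_le_right hf)
    have : ∀ᶠ t in 𝓝 x, k t < f t :=
      (k.cont.continuousAt).eventually_lt (f.cont.continuousAt) hk
    filter_upwards [this] with t ht
    rw [inf_apply, min_eq_left ht.le]
  have hbdd : BddAbove ((fun f : L => f x) '' P) := by
    refine ⟨k0 x, ?_⟩
    rintro _ ⟨f, hf, rfl⟩
    by_contra hc
    exact hk0 (hlt f k0 hf (not_le.mp hc))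
  refine ⟨x, sSup ((fun f : L => f x) '' P), ?_⟩
  ext f
  rw [mem_pt]
  constructor
  · intro hf
    exact le_csSup hbdd ⟨f, hf, rfl⟩
  · intro hf
    have hmem : ∀ k : L, k x < f x → k ∈ P := by
      intro k hk
      obtain ⟨_, ⟨f', hf', rfl⟩, h1⟩ := exists_lt_of_lt_csSup
        (Set.Nonempty.image (fun f : L => f x) ⟨f0, hf0⟩) (hk.trans_le hf)
      exact hlt f' k hf' h1
    apply hP.lub (Set.range fun n : ℕ => line 0 (-(1 / ((n : ℝ) + 1))) 1 one_pos * f)
    · rintro _ ⟨n, rfl⟩
      apply hmem
      simp only [mul_apply, line_apply]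
      have : 0 < 1 / ((n : ℝ) + 1) := by positivity
      linarith
    · constructor
      · rintro _ ⟨n, rfl⟩
        rw [L.le_def]
        intro t
        simp only [mul_apply, line_apply]
        have : 0 < 1 / ((n : ℝ) + 1) := by positivity
        linarith
      · intro u hu
        rw [L.le_def]
        intro t
        apply le_of_forall_pos_le_add
        intro ε hε
        obtain ⟨n, hn⟩ := exists_nat_one_div_lt hε
        have := app (hu ⟨n, rfl⟩) t
        simp only [mul_apply, line_apply] at this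
        linarith

theorem pt_subset {x y x' y' : ℝ} : pt x y ⊆ pt x' y' ↔ x' ≤ x ∧ y ≤ y' := by
  constructor
  · intro h
    by_contra hcon
    rw [not_and_or, not_le, not_le] at hcon
    rcases hcon with h1 | h1
    · obtain ⟨f, hf, hf'⟩ := exists_interp h1 (show y < max y y' + 1 by
        have := le_max_left y y'; linarith)
      have := h (show f ∈ pt x y from hf.le)
      rw [mem_pt, hf'] at this
      have := le_max_right y y'
      linarith
    · rcases le_or_gt x' x with h2 | h2
      · obtain ⟨f, hf⟩ := exists_through x y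
        obtain ⟨f', hf'⟩ := exists_through x' ((y + y') / 2)
        have h3 : f' ⊓ f ∈ pt x y := by
          rw [mem_pt, inf_apply, hf]; exact min_le_right _ _
        rcases h2.lt_or_eq with h4 | h4
        · obtain ⟨f, hf, hf'⟩ := exists_interp h4 (show (y + y') / 2 < y by linarith)
          have := h (show f ∈ pt x y from hf'.le)
          rw [mem_pt, hf] at this
          linarith
        · subst h4
          have := h (show f ∈ pt x' y from hf.le)
          rw [mem_pt, hf] at this
          linarith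
      · obtain ⟨f, hf, hf'⟩ := exists_interp h2 (show y < max y y' + 1 by
          have := le_max_left y y'; linarith)
        have := h (show f ∈ pt x y from hf.le)
        rw [mem_pt, hf'] at this
        have := le_max_right y y'
        linarith
  · rintro ⟨h1, h2⟩ f hf
    exact (((le_iff f).mpr h1).trans hf).trans h2

theorem pt_inj {x y x' y' : ℝ} (h : pt x y = pt x' y') : x = x' ∧ y = y' := by
  have h1 := pt_subset.mp h.subset
  have h2 := pt_subset.mp h.superset
  exact ⟨le_antisymm h2.1 h1.1, le_antisymm h1.2 h2.2⟩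

theorem cp_image (Φ : L ≃o L) {P : Set L} (hP : CP P) : CP {f | Φ.symm f ∈ P} := by
  refine ⟨?_, ?_, ?_, ?_, ?_, ?_⟩
  · obtain ⟨f, hf⟩ := hP.nonempty
    exact ⟨Φ f, by simpa using hf⟩
  · obtain ⟨f, hf⟩ := hP.ne_univ
    exact ⟨Φ f, by simpa using hf⟩
  · intro f g h hg
    exact hP.lower _ _ (Φ.symm.monotone h) hg
  · intro f g hf hg
    show Φ.symm (f ⊔ g) ∈ P
    rw [OrderIso.map_sup]
    exact hP.sup _ _ hf hg
  · intro f g h
    apply hP.prime
    rw [← OrderIso.map_inf]
    exact h
  · intro S h hS hlub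
    apply hP.lub (Φ.symm '' S)
    · rintro _ ⟨f, hf, rfl⟩
      exact hS hf
    · exact (OrderIso.isLUB_image' Φ.symm).mpr hlub

theorem exists_pt_image (Φ : L ≃o L) (x y : ℝ) :
    ∃ x' y', ∀ f, Φ f x' ≤ y' ↔ f x ≤ y := by
  obtain ⟨x', y', h⟩ := pt_of_cp (cp_image Φ (cp_pt x y))
  refine ⟨x', y', fun f => ?_⟩
  have h1 : Φ f ∈ {f | Φ.symm f ∈ pt x y} ↔ Φ f ∈ pt x' y' := by rw [h]
  rw [Set.mem_ofPred_eq, OrderIso.symm_apply_apply] at h1
  exact h1.symm

/-- Lattice automorphisms that move everything up. -/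
theorem structure_up (Φ : L ≃o L) (hΦ : ∀ f, f ≤ Φ f) :
    ∃ β α : L, (∀ f, Φ f = β * f * α⁻¹) ∧ (∀ t, t ≤ β t) ∧ (∀ t, α t ≤ t) := by
  choose a b hab using exists_pt_image Φ
  -- order
  have hord : ∀ x y x' y', (x' ≤ x ∧ y ≤ y') ↔ (a x' y' ≤ a x y ∧ b x y ≤ b x' y') := by
    intro x y x' y'
    rw [← pt_subset, ← pt_subset]
    constructor
    · intro h f hf
      have h1 := (hab x y (Φ.symm f)).mp (by rw [OrderIso.apply_symm_apply]; exact hf)
      have h2 := (hab x' y' (Φ.symm f)).mpr (h h1)
      rwa [OrderIso.apply_symm_apply] at h2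
    · intro h f hf
      exact (hab x' y' f).mp (h ((hab x y f).mpr hf))
  have hinj : ∀ x y x' y', a x y = a x' y' → b x y = b x' y' → x = x' ∧ y = y' := by
    intro x y x' y' h1 h2
    have h3 := (hord x y x' y').mpr ⟨h1.ge, h2.le⟩
    have h4 := (hord x' y' x y).mpr ⟨h1.le, h2.ge⟩
    exact ⟨le_antisymm h4.1 h3.1, le_antisymm h3.2 h4.2⟩
  have hsurj : ∀ x' y', ∃ x y, a x y = x' ∧ b x y = y' := by
    intro x' y'
    obtain ⟨x, y, h⟩ := exists_pt_image Φ.symm x' y'
    refine ⟨x, y, ?_⟩
    apply pt_inj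
    ext f
    rw [mem_pt, mem_pt]
    have h1 := hab x y (Φ.symm f)
    rw [OrderIso.apply_symm_apply] at h1
    rw [h1, h f]
  have hup : ∀ x y, a x y ≤ x ∧ y ≤ b x y := by
    intro x y
    rw [← pt_subset]
    intro f hf
    have h1 : Φ.symm f ≤ f := by
      have := hΦ (Φ.symm f)
      rwa [OrderIso.apply_symm_apply] at this
    have h2 : Φ.symm f x ≤ y := (app h1 x).trans hf
    have h3 := (hab x y (Φ.symm f)).mpr h2
    rwa [OrderIso.apply_symm_apply] at h3
  -- verticals
  have hv0 : ∀ x y y', y ≤ y' → a x y' ≠ a x y → b x y = b x y' := by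
    intro x y y' hy hne
    have h1 := (hord x y x y').mp ⟨le_rfl, hy⟩
    by_contra hb
    obtain ⟨r1, r2, hr1, hr2⟩ := hsurj (a x y') (b x y)
    obtain ⟨s1, s2, hs1, hs2⟩ := hsurj (a x y) (b x y')
    have e1 := (hord x y r1 r2).mpr ⟨by rw [hr1]; exact h1.1, by rw [hr2]⟩
    have e2 := (hord r1 r2 x y').mpr ⟨by rw [hr1], by rw [hr2]; exact h1.2⟩
    have e3 := (hord x y s1 s2).mpr ⟨by rw [hs1], by rw [hs2]; exact h1.2⟩
    have e4 := (hord s1 s2 x y').mpr ⟨by rw [hs1]; exact h1.1, by rw [hs2]⟩
    have er : r1 = x := le_antisymm e1.1 e2.1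
    have es : s1 = x := le_antisymm e3.1 e4.1
    rcases le_total r2 s2 with h | h
    · have h2 := (hord r1 r2 s1 s2).mp ⟨by rw [er, es], h⟩
      rw [hr1, hs1] at h2
      exact hne (le_antisymm h1.1 h2.1)
    · have h2 := (hord s1 s2 r1 r2).mp ⟨by rw [er, es], h⟩
      rw [hr2, hs2] at h2
      exact hb (le_antisymm h1.2 h2.2)
  have hv1 : ∀ x y y', y ≤ y' → a x y' = a x y := by
    intro x y y' hy
    by_contra hne
    have h1 := hv0 x y y' hy hne
    have h2 := (hord x y x y').mp ⟨le_rfl, hy⟩
    have h3 : y' ≤ max y' (b x y) + 1 := by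
      have := le_max_left y' (b x y); linarith
    have h4 := (hord x y' x (max y' (b x y) + 1)).mp ⟨le_rfl, h3⟩
    have h5 : a x (max y' (b x y) + 1) ≠ a x y := by
      intro h
      rw [h] at h4
      exact hne (le_antisymm h2.1 h4.1)
    have h6 := hv0 x y _ (hy.trans h3) h5
    have h7 := (hup x (max y' (b x y) + 1)).2
    rw [← h6] at h7
    have := le_max_right y' (b x y)
    linarith
  have hv : ∀ x y y', a x y' = a x y := by
    intro x y y'
    rcases le_total y y' with h | h
    · exact hv1 x y y' h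
    · exact (hv1 x y' y h).symm
  -- horizontals
  have hh0 : ∀ x x' y, x' ≤ x → b x' y ≠ b x y → a x' y = a x y := by
    intro x x' y hx hne
    have h1 := (hord x y x' y).mp ⟨hx, le_rfl⟩
    by_contra hb
    obtain ⟨r1, r2, hr1, hr2⟩ := hsurj (a x' y) (b x y)
    obtain ⟨s1, s2, hs1, hs2⟩ := hsurj (a x y) (b x' y)
    have e1 := (hord x y r1 r2).mpr ⟨by rw [hr1]; exact h1.1, by rw [hr2]⟩
    have e2 := (hord r1 r2 x' y).mpr ⟨by rw [hr1], by rw [hr2]; exact h1.2⟩
    have e3 := (hord x y s1 s2).mpr ⟨by rw [hs1], by rw [hs2]; exact h1.2⟩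
    have e4 := (hord s1 s2 x' y).mpr ⟨by rw [hs1]; exact h1.1, by rw [hs2]⟩
    have er : r2 = y := le_antisymm e2.2 e1.2
    have es : s2 = y := le_antisymm e4.2 e3.2
    rcases le_total r1 s1 with h | h
    · have h2 := (hord s1 s2 r1 r2).mp ⟨h, by rw [er, es]⟩
      rw [hr2, hs2] at h2
      exact hne (le_antisymm h2.2 h1.2)
    · have h2 := (hord r1 r2 s1 s2).mp ⟨h, by rw [er, es]⟩
      rw [hr1, hs1] at h2
      exact hb (le_antisymm h1.1 h2.1)
  have hh1 : ∀ x x' y, x' ≤ x → b x' y = b x y := by
    intro x x' y hx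
    by_contra hne
    have h1 := hh0 x x' y hx hne
    have h2 := (hord x y x' y).mp ⟨hx, le_rfl⟩
    have h3 : min x' (a x y) - 1 ≤ x' := by
      have := min_le_left x' (a x y); linarith
    have h4 := (hord x' y (min x' (a x y) - 1) y).mp ⟨h3, le_rfl⟩
    have h5 : b (min x' (a x y) - 1) y ≠ b x y := by
      intro h
      rw [h] at h4
      exact hne (le_antisymm h4.2 h2.2)
    have h6 := hh0 x _ y (h3.trans hx) h5
    have h7 := (hup (min x' (a x y) - 1) y).1
    rw [h6] at h7
    have := min_le_right x' (a x y)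
    linarith
  have hh : ∀ x x' y, b x' y = b x y := by
    intro x x' y
    rcases le_total x' x with h | h
    · exact hh1 x x' y h
    · exact (hh1 x' x y h).symm
  -- the two maps
  let α : L := L.mk (fun x => a x 0) (fun x y => by
      have := hord y 0 x 0
      simp only [le_refl, and_true, hh x y 0] at this
      exact this.symm) (fun x' => by
      obtain ⟨x, y, h1, h2⟩ := hsurj x' 0
      exact ⟨x, by show a x 0 = x'; rw [← h1]; exact hv x y 0⟩)
  let β : L := L.mk (fun y => b 0 y) (fun x y => by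
      have := hord 0 x 0 y
      simp only [le_refl, true_and, hv 0 x y] at this
      exact this.symm) (fun y' => by
      obtain ⟨x, y, h1, h2⟩ := hsurj 0 y'
      exact ⟨y, by show b 0 y = y'; rw [← h2]; exact hh x 0 y⟩)
  have hα : ∀ x y, a x y = α x := fun x y => hv x 0 y
  have hβ : ∀ x y, b x y = β y := fun x y => hh 0 x y
  have key : ∀ f x y, Φ f (α x) ≤ β y ↔ f x ≤ y := by
    intro f x y
    have := hab x y f
    rwa [hα, hβ] at this
  refine ⟨β, α, fun f => L.ext fun t => ?_, fun t => ?_, fun t => ?_⟩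
  · simp only [mul_apply]
    obtain ⟨x, rfl⟩ : ∃ x, t = α x := ⟨α⁻¹ t, by simp⟩
    rw [inv_apply_self]
    apply le_antisymm
    · exact (key f x (f x)).mpr le_rfl
    · have h1 := (key f x (β⁻¹ (Φ f (α x)))).mp (by rw [apply_inv_self])
      rwa [le_inv_iff] at h1
  · rw [← hβ 0 t]; exact (hup 0 t).2
  · rw [← hα t 0]; exact (hup t 0).1

/-- Two maps of the form `f ↦ β f α⁻¹` that agree have the same coefficients. -/
theorem coeff_unique {β α β' α' : L} (h : ∀ f : L, β * f * α⁻¹ = β' * f * α'⁻¹) :
    β = β' ∧ α = α' := by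
  have hp : ∀ (f : L) (x : ℝ), β (f (α⁻¹ x)) = β' (f (α'⁻¹ x)) := by
    intro f x
    have := DFunLike.congr_fun (h f) x
    simpa using this
  have h1 : ∀ x, α⁻¹ x = α'⁻¹ x := by
    intro x
    by_contra hne
    rcases lt_or_gt_of_ne hne with hlt | hlt
    · obtain ⟨f, hf, hf'⟩ := exists_interp hlt (show (0 : ℝ) < 1 by norm_num)
      obtain ⟨k, hk, hk'⟩ := exists_interp hlt (show (0 : ℝ) < 2 by norm_num)
      have e1 := hp f x
      have e2 := hp k x
      rw [hf, hf'] at e1
      rw [hk, hk', e1] at e2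
      have := β'.inj e2
      norm_num at this
    · obtain ⟨f, hf, hf'⟩ := exists_interp hlt (show (0 : ℝ) < 1 by norm_num)
      obtain ⟨k, hk, hk'⟩ := exists_interp hlt (show (0 : ℝ) < 2 by norm_num)
      have e1 := hp f x
      have e2 := hp k x
      rw [hf, hf'] at e1
      rw [hk, hk', ← e1] at e2
      have := β.inj e2
      norm_num at this
  constructor
  · apply L.ext
    intro y
    obtain ⟨f, hf⟩ := exists_through (α⁻¹ 0) y
    have := hp f 0
    rwa [← h1, hf] at this
  · have : α⁻¹ = α'⁻¹ := L.ext h1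
    exact inv_injective this

section main

variable (m : L → L → L) (e : L) (i : L → L)

/-- Left translation. -/
def lt (assoc : ∀ a b c, m (m a b) c = m a (m b c)) (one_m : ∀ a, m e a = a)
    (inv_m : ∀ a, m (i a) a = e) (m_inv : ∀ a, m a (i a) = e)
    (monol : ∀ a b c, a ≤ b → m c a ≤ m c b) (g : L) : L ≃o L where
  toFun := m g
  invFun := m (i g)
  left_inv f := by rw [← assoc, inv_m, one_m]
  right_inv f := by rw [← assoc, m_inv, one_m]
  map_rel_iff' := by
    intro a b
    constructor
    · intro h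
      have := monol _ _ (i g) h
      simpa only [Equiv.coe_fn_mk, ← assoc, inv_m, one_m] using this
    · intro h
      exact monol _ _ g h

/-- Right translation. -/
def rt (assoc : ∀ a b c, m (m a b) c = m a (m b c)) (m_one : ∀ a, m a e = a)
    (inv_m : ∀ a, m (i a) a = e) (m_inv : ∀ a, m a (i a) = e)
    (monor : ∀ a b c, a ≤ b → m a c ≤ m b c) (g : L) : L ≃o L where
  toFun f := m f g
  invFun f := m f (i g)
  left_inv f := by
    show m (m f g) (i g) = f
    rw [assoc, m_inv, m_one]
  right_inv f := by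
    show m (m f (i g)) g = f
    rw [assoc, inv_m, m_one]
  map_rel_iff' := by
    intro a b
    constructor
    · intro h
      have := monor _ _ (i g) h
      simpa only [Equiv.coe_fn_mk, assoc, m_inv, m_one] using this
    · intro h
      exact monor _ _ g h

variable {m e i}

theorem main (assoc : ∀ a b c, m (m a b) c = m a (m b c)) (one_m : ∀ a, m e a = a)
    (m_one : ∀ a, m a e = a)
    (inv_m : ∀ a, m (i a) a = e) (m_inv : ∀ a, m a (i a) = e)
    (monol : ∀ a b c, a ≤ b → m c a ≤ m c b) (monor : ∀ a b c, a ≤ b → m a c ≤ m b c) :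
    (∀ f g, m f g = f * e⁻¹ * g) ∨ (∀ f g, m f g = g * e⁻¹ * f) := by
  -- translations by positive elements
  have hL : ∀ g, e ≤ g → ∃ β α : L, (∀ f, m g f = β * f * α⁻¹) ∧ (∀ t, t ≤ β t) ∧
      (∀ t, α t ≤ t) := by
    intro g hg
    exact structure_up (lt m e i assoc one_m inv_m m_inv monol g) (fun f => by
      have := monor _ _ f hg
      rwa [one_m] at this)
  have hR : ∀ g, e ≤ g → ∃ β α : L, (∀ f, m f g = β * f * α⁻¹) ∧ (∀ t, t ≤ β t) ∧
      (∀ t, α t ≤ t) := by
    intro g hg
    exact structure_up (rt m e i assoc m_one inv_m m_inv monor g) (fun f => by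
      have := monol _ _ f hg
      rwa [m_one] at this)
  choose! β α hβα hβ hα using hL
  choose! β' α' hβα' hβ' hα' using hR
  -- left and right translations commute
  have hcomm : ∀ g k, e ≤ g → e ≤ k → β g * β' k = β' k * β g ∧ α g * α' k = α' k * α g := by
    intro g k hg hk
    apply coeff_unique
    intro f
    have h1 := assoc g f k
    rw [hβα g hg f, hβα' k hk, hβα' k hk f, hβα g hg] at h1
    rw [mul_inv_rev, mul_inv_rev]
    simp only [mul_assoc] at h1 ⊢
    exact h1.symm
  -- positive elements above `e`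
  have hpos : ∀ h : L, (∀ t, t ≤ h t) → e ≤ h * e := by
    intro h hh
    rw [L.le_def]
    intro t
    exact hh (e t)
  -- fixed points of `h` are fixed by `β' (h e)`
  have hfix : ∀ h : L, (∀ t, t ≤ h t) → ∀ t, h t = t → β' (h * e) t = t := by
    intro h hh t ht
    have h1 := hβα' (h * e) (hpos h hh) e
    rw [one_m] at h1
    have h2 := DFunLike.congr_fun h1 (e⁻¹ t)
    simp only [mul_apply, apply_inv_self] at h2
    rw [ht] at h2
    -- t = β' (e (α'⁻¹ (e⁻¹ t)))
    have h3 : t ≤ e ((α' (h * e))⁻¹ (e⁻¹ t)) := by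
      rw [← inv_le_iff, le_inv_iff]
      exact hα' _ (hpos h hh) _
    apply le_antisymm _ (hβ' _ (hpos h hh) t)
    calc β' (h * e) t ≤ β' (h * e) (e ((α' (h * e))⁻¹ (e⁻¹ t))) := (le_iff _).mpr h3
      _ = t := h2.symm
  -- if `β' (h e) = 1` then `α' (h e)` is known
  have hα'eq : ∀ h : L, (∀ t, t ≤ h t) → β' (h * e) = 1 → (α' (h * e))⁻¹ = e⁻¹ * h * e := by
    intro h hh h1
    have h2 := hβα' (h * e) (hpos h hh) e
    rw [one_m, h1, one_mul] at h2
    have h3 : e⁻¹ * (h * e) = (α' (h * e))⁻¹ := by
      conv_lhs => rw [h2]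
      rw [inv_mul_cancel_left]
    rw [← h3, mul_assoc]
  -- hence the commutation
  have hcom2 : ∀ h : L, (∀ t, t ≤ h t) → β' (h * e) = 1 → ∀ g, e ≤ g → ∀ t,
      α g (e⁻¹ (h (e t))) = e⁻¹ (h (e (α g t))) := by
    intro h hh h1 g hg t
    have h2 := (hcomm g (h * e) hg (hpos h hh)).2
    have h3 : α g * (α' (h * e))⁻¹ = (α' (h * e))⁻¹ * α g := by
      have : Commute (α g) (α' (h * e)) := h2
      exact this.inv_right
    rw [hα'eq h hh h1] at h3
    have h4 := DFunLike.congr_fun h3 t
    simpa only [mul_apply] using h4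
  by_cases hB : ∀ g, e ≤ g → β g = 1
  · right
    have h1 : ∀ g f, e ≤ g → m g f = f * e⁻¹ * g := by
      intro g f hg
      have h2 := hβα g hg e
      rw [m_one, hB g hg, one_mul] at h2
      have h3 : e⁻¹ * g = (α g)⁻¹ := by
        conv_lhs => rw [h2]
        rw [inv_mul_cancel_left]
      rw [hβα g hg f, hB g hg, one_mul, mul_assoc f, h3]
    intro g f
    -- general `g`
    let k := i g ⊔ e
    have hk : e ≤ k := le_sup_right
    have hkg : e ≤ m k g := by
      have := monor (i g) k g le_sup_left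
      rwa [inv_m] at this
    have h2 := assoc k g f
    rw [h1 _ _ hkg, h1 k g hk, h1 k (m g f) hk] at h2
    have h3 : (f * e⁻¹ * g) * (e⁻¹ * k) = m g f * (e⁻¹ * k) := by
      simp only [mul_assoc] at h2 ⊢
      exact h2
    exact (mul_right_cancel h3).symm
  · left
    push Not at hB
    obtain ⟨g0, hg0, hne⟩ := hB
    obtain ⟨p, hp⟩ : ∃ p, p < β g0 p := by
      by_contra hcon
      push Not at hcon
      exact hne (L.ext fun t => le_antisymm (hcon t) (hβ g0 hg0 t))
    -- an interval moved off itself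
    obtain ⟨a, ha1, ha2⟩ : ∃ a, a < p ∧ p < β g0 a := by
      refine ⟨(β g0)⁻¹ ((p + β g0 p) / 2), ?_, ?_⟩
      · rw [← (β g0).lt_iff, apply_inv_self]; linarith
      · rw [apply_inv_self]; linarith
    obtain ⟨h, hh, hh'⟩ := exists_bump a p
    have hβ1 : β' (h * e) = 1 := by
      apply L.ext
      intro t
      rw [one_apply]
      by_cases ht : t ≤ a ∨ p ≤ t
      · exact hfix h hh t ((hh' t).mpr ht)
      · push Not at ht
        have h1 : p ≤ β g0 t := ha2.le.trans ((le_iff _).mpr ht.1.le)
        have h2 := hfix h hh (β g0 t) ((hh' _).mpr (Or.inr h1))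
        have h3 := DFunLike.congr_fun (hcomm g0 (h * e) hg0 (hpos h hh)).1 t
        rw [mul_apply, mul_apply, h2] at h3
        exact (β g0).inj h3
    -- `α g` fixes `c = e⁻¹ a`
    have hαc : ∀ g, e ≤ g → α g (e⁻¹ a) = e⁻¹ a := by
      intro g hg
      by_contra hcon
      have hlt : α g (e⁻¹ a) < e⁻¹ a := lt_of_le_of_ne (hα g hg _) hcon
      have hlt2 : e⁻¹ a < (α g)⁻¹ (e⁻¹ a) := by
        rw [← (α g).lt_iff, apply_inv_self]; exact hlt
      have hcd : e⁻¹ a < e⁻¹ p := (lt_iff _).mpr ha1
      obtain ⟨t, ht1, ht2⟩ := exists_between (lt_min hlt2 hcd)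
      have ht3 := ht2.trans_le (min_le_left _ _)
      have ht4 := ht2.trans_le (min_le_right _ _)
      have h1 := hcom2 h hh hβ1 g hg t
      -- `α g t < c`
      have h2 : α g t < e⁻¹ a := by
        rw [← (α g).lt_iff, apply_inv_self] at ht3; exact ht3
      have h3 : e (α g t) ≤ a := by
        rw [← le_inv_iff]; exact h2.le
      rw [(hh' _).mpr (Or.inl h3), inv_apply_self] at h1
      have h4 := (α g).inj h1
      have h5 : h (e t) = e t := by
        conv_rhs => rw [← h4]
        rw [apply_inv_self]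
      rcases (hh' _).mp h5 with h6 | h6
      · rw [← le_inv_iff] at h6; linarith
      · rw [← inv_le_iff] at h6; linarith
    -- transitivity of the `β g`
    have htrans : ∀ u v, u ≤ v → ∃ g, e ≤ g ∧ β g u = v := by
      intro u v huv
      let f : L := line (e⁻¹ a) u 1 one_pos
      let f' : L := line (e⁻¹ a) v 1 one_pos
      have hff : f ≤ f' := by
        rw [L.le_def]; intro t
        show u + 1 * (t - e⁻¹ a) ≤ v + 1 * (t - e⁻¹ a)
        linarith
      have hg : e ≤ m f' (i f) := by
        have := monor _ _ (i f) hff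
        rwa [m_inv] at this
      refine ⟨m f' (i f), hg, ?_⟩
      have h1 := hβα (m f' (i f)) hg f
      rw [assoc, inv_m, m_one] at h1
      have h2 := DFunLike.congr_fun h1 (e⁻¹ a)
      simp only [mul_apply] at h2
      have h3 : (α (m f' (i f)))⁻¹ (e⁻¹ a) = e⁻¹ a := by
        conv_lhs => rw [← hαc _ hg]
        rw [inv_apply_self]
      rw [h3] at h2
      have h4 : f (e⁻¹ a) = u := by
        show u + 1 * (e⁻¹ a - e⁻¹ a) = u
        ring
      have h5 : f' (e⁻¹ a) = v := by
        show v + 1 * (e⁻¹ a - e⁻¹ a) = v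
        ring
      rw [h4, h5] at h2
      exact h2.symm
    -- `β' (h e) = 1` whenever `h` has a fixed point
    have hβ'1 : ∀ h : L, (∀ t, t ≤ h t) → ∀ r, h r = r → β' (h * e) = 1 := by
      intro h hh r hr
      have hr' := hfix h hh r hr
      apply L.ext
      intro t
      rw [one_apply]
      rcases le_total r t with h1 | h1
      · obtain ⟨g, hg, hgt⟩ := htrans r t h1
        have h3 := DFunLike.congr_fun (hcomm g (h * e) hg (hpos h hh)).1 r
        rw [mul_apply, mul_apply, hr', hgt] at h3
        exact h3.symm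
      · obtain ⟨g, hg, hgt⟩ := htrans t r h1
        have h3 := DFunLike.congr_fun (hcomm g (h * e) hg (hpos h hh)).1 t
        rw [mul_apply, mul_apply, hgt, hr'] at h3
        rw [← hgt] at h3
        exact (β g).inj h3
    have hα1 : ∀ g, e ≤ g → α g = 1 := by
      intro g hg
      apply L.ext
      intro t
      rw [one_apply]
      obtain ⟨h, hh, hh'⟩ := exists_single (e t)
      have h1 := hcom2 h hh (hβ'1 h hh (e t) ((hh' _).mpr rfl)) g hg t
      rw [(hh' _).mpr rfl, inv_apply_self] at h1
      have h2 : h (e (α g t)) = e (α g t) := by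
        conv_rhs => rw [h1]
        rw [apply_inv_self]
      exact e.inj ((hh' _).mp h2)
    have h1 : ∀ g f, e ≤ g → m g f = g * e⁻¹ * f := by
      intro g f hg
      have h2 := hβα g hg e
      rw [m_one, hα1 g hg, inv_one, mul_one] at h2
      rw [hβα g hg f, hα1 g hg, inv_one, mul_one]
      conv_rhs => rw [h2]
      rw [mul_inv_cancel_right]
    intro g f
    let k := i g ⊔ e
    have hk : e ≤ k := le_sup_right
    have hkg : e ≤ m k g := by
      have := monor (i g) k g le_sup_left
      rwa [inv_m] at this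
    have h2 := assoc k g f
    rw [h1 _ _ hkg, h1 k g hk, h1 k (m g f) hk] at h2
    have h3 : (k * e⁻¹) * (g * e⁻¹ * f) = (k * e⁻¹) * m g f := by
      simp only [mul_assoc] at h2 ⊢
      exact h2
    exact (mul_left_cancel h3).symm

end main

/-- The reflection `t ↦ -t` conjugated inverse: `f ↦ (t ↦ -f⁻¹ (-t))`. -/
theorem exists_refl (f : L) : ∃ g : L, ∀ t, g t = - f⁻¹ (-t) := by
  refine ⟨L.mk (fun t => - f⁻¹ (-t)) ?_ ?_, fun t => rfl⟩
  · intro x y
    rw [neg_le_neg_iff, le_iff, neg_le_neg_iff]
  · intro y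
    exact ⟨-f (-y), by show - f⁻¹ (- -f (-y)) = y; rw [neg_neg, inv_apply_self, neg_neg]⟩

/-- The lattice automorphism and group antiautomorphism. -/
noncomputable def refl (f : L) : L := (exists_refl f).choose

theorem refl_apply (f : L) (t : ℝ) : refl f t = - f⁻¹ (-t) := (exists_refl f).choose_spec t

theorem refl_mul (f g : L) : refl (f * g) = refl g * refl f := by
  apply L.ext
  intro t
  rw [mul_apply, refl_apply, refl_apply, refl_apply, neg_neg, mul_inv_rev, mul_apply]

theorem refl_inv (f : L) (t : ℝ) : (refl f)⁻¹ t = - f (-t) := by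
  apply (refl f).inj
  rw [apply_inv_self, refl_apply, neg_neg, inv_apply_self, neg_neg]

theorem refl_refl (f : L) : refl (refl f) = f := by
  apply L.ext
  intro t
  rw [refl_apply, refl_inv, neg_neg, neg_neg]

theorem refl_le {f g : L} (h : f ≤ g) : refl f ≤ refl g := by
  rw [L.le_def]
  intro t
  rw [refl_apply, refl_apply, neg_le_neg_iff, inv_le_iff]
  have := app h (f⁻¹ (-t))
  rwa [apply_inv_self] at this

/-- Right translation by `e`. -/
noncomputable def isoRight (e : L) : L ≃o L where
  toFun f := f * e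
  invFun f := f * e⁻¹
  left_inv f := mul_inv_cancel_right f e
  right_inv f := inv_mul_cancel_right f e
  map_rel_iff' := by
    intro f g
    constructor
    · intro h
      rw [L.le_def]
      intro t
      have := app h (e⁻¹ t)
      simpa using this
    · intro h
      rw [L.le_def]
      intro t
      exact app h (e t)

theorem isoRight_mul {m : L → L → L} {e : L} (h : ∀ f g, m f g = f * e⁻¹ * g) (x y : L) :
    isoRight e (x * y) = m (isoRight e x) (isoRight e y) := by
  rw [h]
  show x * y * e = x * e * e⁻¹ * (y * e)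
  rw [mul_inv_cancel_right, mul_assoc]

/-- The reflection followed by right translation by `e`. -/
noncomputable def isoOp (e : L) : L ≃o L where
  toFun f := refl f * e
  invFun f := refl (f * e⁻¹)
  left_inv f := by
    show refl (refl f * e * e⁻¹) = f
    rw [mul_inv_cancel_right, refl_refl]
  right_inv f := by
    show refl (refl (f * e⁻¹)) * e = f
    rw [refl_refl, inv_mul_cancel_right]
  map_rel_iff' := by
    intro f g
    constructor
    · intro h
      have h1 : refl f * e ≤ refl g * e := h
      have h2 := (isoRight e).le_iff_le.mp h1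
      have := refl_le h2
      rwa [refl_refl, refl_refl] at this
    · intro h
      exact (isoRight e).le_iff_le.mpr (refl_le h)

theorem isoOp_mul {m : L → L → L} {e : L} (h : ∀ f g, m f g = g * e⁻¹ * f) (x y : L) :
    isoOp e (x * y) = m (isoOp e x) (isoOp e y) := by
  rw [h]
  show refl (x * y) * e = refl y * e * e⁻¹ * (refl x * e)
  rw [mul_inv_cancel_right, ← mul_assoc, refl_mul]

theorem not_comm : ¬ ∀ x y : L, x * y = y * x := by
  intro h
  have h1 := DFunLike.congr_fun (h (line 0 0 2 two_pos) (line 0 1 1 one_pos)) 0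
  simp at h1

end Pool.Agent.H70R2.LatAut
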